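import Pool.Agent.Lib_helper36.CMC.Plain

/-!
# Working definitions
-/

set_option autoImplicit false

namespace Pool.Agent.CMC

open MeasureTheory Set
open scoped ContDiff

variable {n : ℕ}

/-- the standard inner product -/
def dt (a b : Fin n → ℝ) : ℝ := ∑ i, a i * b i

/-- the square of the norm -/
def nsq (a : Fin n → ℝ) : ℝ := ∑ i, a i ^ 2

/-- the component of `g` in the layer `j` -/
def pj (G : Carnot n) (j : ℕ) (g : Fin n → ℝ) : Fin n → ℝ := fun i => if G.wt i = j then g i else 0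

/-- the left-invariant vector fields -/
noncomputable def X (G : Carnot n) (a g : Fin n → ℝ) : Fin n → ℝ := lif G.mul a g

/-- the homogeneous dimension -/
def hd (G : Carnot n) : ℕ := ∑ i, G.wt i

/-- `g` has no component of weight less than `j` -/
def Ge (G : Carnot n) (j : ℕ) (g : Fin n → ℝ) : Prop := ∀ i, G.wt i < j → g i = 0

/-- the bilinear map `∂₁∂₂ (g h)` at `(0, 0)` -/
noncomputable def bet (G : Carnot n) (a c : Fin n → ℝ) : Fin n → ℝ := fderiv ℝ (X G c) 0 a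

/-- products of horizontal vectors -/
inductive Gen (G : Carnot n) : (Fin n → ℝ) → Prop
  | zero : Gen G 0
  | step (g a : Fin n → ℝ) : Gen G g → a ∈ lay G.wt 1 → Gen G (G.mul g a)

/-- products of `k` horizontal vectors of norm at most `M` -/
def KK (G : Carnot n) (M : ℝ) : ℕ → Set (Fin n → ℝ)
  | 0 => {0}
  | k + 1 => {q | ∃ g ∈ KK G M k, ∃ a ∈ lay G.wt 1, nsq a ≤ M ^ 2 ∧ q = G.mul g a}

/-- Calibrating data: orthonormal horizontal vectors `Y`, `e` and a function `w` with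
`X_A w = (1/2) Q <Y, A> + r(A)`. -/
structure Cal (G : Carnot n) where
  Y : Fin n → ℝ
  e : Fin n → ℝ
  w : (Fin n → ℝ) → ℝ
  Q : (Fin n → ℝ) → ℝ
  r : (Fin n → ℝ) → (Fin n → ℝ) → ℝ
  C : ℝ
  hY : Y ∈ lay G.wt 1
  he : e ∈ lay G.wt 1
  hYY : nsq Y = 1
  hee : nsq e = 1
  hYe : dt Y e = 0
  hw : ContDiff ℝ 1 w
  w0 : w 0 = 0
  hC : 1 ≤ C
  hX : ∀ g, ∀ A ∈ lay G.wt 1, fderiv ℝ w g (X G A g) = Q g / 2 * dt Y A + r g A
  hQ1 : ∀ g, dt e g ^ 2 ≤ Q g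
  hQ2 : ∀ g, Q g ≤ dt e g ^ 2 + C * (nsq (pj G 1 g) - dt Y g ^ 2 - dt e g ^ 2)
  hr : ∀ g, ∀ A ∈ lay G.wt 1,
    |r g A| ≤ C * (nsq (pj G 1 g) - dt Y g ^ 2) * Real.sqrt (nsq A - dt Y A ^ 2)

namespace Cal

variable {G : Carnot n} (D : Cal G)

/-- the coordinate `ξ` -/
def xi (g : Fin n → ℝ) : ℝ := dt D.e g

/-- the coordinate `y` -/
def yy (g : Fin n → ℝ) : ℝ := dt D.Y g

/-- the remaining part of the horizontal component -/
def zz (g : Fin n → ℝ) : Fin n → ℝ := fun i => pj G 1 g i - D.yy g * D.Y i - D.xi g * D.e i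

/-- `|x|²` -/
def xs (g : Fin n → ℝ) : ℝ := D.xi g ^ 2 + nsq (D.zz g)

/-- `D(q) = d(0,q) - y(q)` -/
noncomputable def df (g : Fin n → ℝ) : ℝ := cc G 0 g - D.yy g

/-- the calibration `Ψ = κ ξ²/2 + y - κ² w` -/
noncomputable def psi (κ : ℝ) (g : Fin n → ℝ) : ℝ := κ * D.xi g ^ 2 / 2 + D.yy g - κ ^ 2 * D.w g

/-- one step of the flow -/
noncomputable def stp (κ h : ℝ) (g : Fin n → ℝ) : Fin n → ℝ :=
  G.mul g (h • (D.Y + (κ * D.xi g) • D.e))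

/-- the flow -/
noncomputable def flw (κ : ℝ) (J : ℕ) (g : Fin n → ℝ) : Fin n → ℝ := (D.stp κ (1 / J))^[J] g

/-- the region `R_ρ` with window `δ` -/
def reg (δ ρ : ℝ) : Set (Fin n → ℝ) := {q | |D.yy q - 1| ≤ δ ∧ D.df q ≤ ρ ^ 2}

end Cal

/-- the coordinates along a horizontal curve of duration `T` -/
structure Prof (n : ℕ) (C T : ℝ) where
  y : ℝ → ℝ
  ξ : ℝ → ℝ
  w : ℝ → ℝ
  z : Fin n → ℝ → ℝ
  hT : 0 ≤ T
  hC : 1 ≤ C
  acy : AbsolutelyContinuousOnInterval y 0 T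
  acξ : AbsolutelyContinuousOnInterval ξ 0 T
  acw : AbsolutelyContinuousOnInterval w 0 T
  acz : ∀ i, AbsolutelyContinuousOnInterval (z i) 0 T
  sub : ∀ᵐ t : ℝ, t ∈ Icc 0 T → deriv y t ^ 2 + deriv ξ t ^ 2 + ∑ i, deriv (z i) t ^ 2 ≤ 1
  wr : ∀ᵐ t : ℝ, t ∈ Icc 0 T → ∃ Q r : ℝ, ξ t ^ 2 ≤ Q ∧ Q ≤ ξ t ^ 2 + C * ∑ i, z i t ^ 2 ∧
    |r| ≤ C * (ξ t ^ 2 + ∑ i, z i t ^ 2) * Real.sqrt (deriv ξ t ^ 2 + ∑ i, deriv (z i) t ^ 2) ∧
    deriv w t = Q / 2 * deriv y t + r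

namespace Prof

variable {C T : ℝ} (P : Prof n C T)

/-- `|x|²` along the curve -/
def xx (t : ℝ) : ℝ := P.ξ t ^ 2 + ∑ i, P.z i t ^ 2

/-- `Ψ` along the curve -/
noncomputable def ps (κ t : ℝ) : ℝ := κ * P.ξ t ^ 2 / 2 + P.y t - κ ^ 2 * P.w t

/-- the energy `∫ (ξ' - κ ξ)² + |z'|²` -/
noncomputable def en (κ : ℝ) : ℝ :=
  ∫ t in (0 : ℝ)..T, ((deriv P.ξ t - κ * P.ξ t) ^ 2 + ∑ i, deriv (P.z i) t ^ 2)

end Prof

end Pool.Agent.CMC
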