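import Pool.Agent.Lib_helper36.CMC.Plain2
import Pool.Agent.Lib_helper36.CMC.W.A5
import Pool.Agent.Lib_helper36.CMC.W.G7
import Pool.Agent.Lib_helper36.CMC.W.B12
import Pool.Agent.Lib_helper36.CMC.W.B13
import Pool.Agent.Lib_helper36.CMC.W.H4
import Pool.Agent.Lib_helper36.CMC.W.EX

/-!
# The theorem
-/

set_option autoImplicit false

namespace Pool.Agent.CMC

open MeasureTheory Set

theorem end_theorem :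
    (∀ (n : ℕ) (G : Carnot n),
      (((∃ i j : Fin n, i ≠ j ∧ ∀ k, G.wt k = 1 ↔ k = i ∨ k = j) ∧ ∃ k, 3 ≤ G.wt k) ∨
        ∃ Y ∈ lay G.wt 1, ∃ l : (Fin n → ℝ) →ₗ[ℝ] ℝ,
          (∀ a ∈ lay G.wt 1, ∀ b ∈ lay G.wt 1, l (brk G.mul Y (brk G.mul a b)) = 0) ∧
          (∀ a ∈ lay G.wt 1, 0 ≤ l (brk G.mul a (brk G.mul a Y))) ∧
          ∃ a ∈ lay G.wt 1, l (brk G.mul a (brk G.mul a Y)) ≠ 0) →
      (∀ g, MeasurePreserving (G.mul g) volume volume) ∧ NonIdeal G ∧ ∀ N : ℝ, ¬ MCP G N) ∧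
    ∃ G : Carnot 4, G.wt = ![1, 1, 2, 3] ∧ NonIdeal G ∧ ∀ N : ℝ, ¬ MCP G N := by
  have key : ∀ (n : ℕ) (G : Carnot n),
      (((∃ i j : Fin n, i ≠ j ∧ ∀ k, G.wt k = 1 ↔ k = i ∨ k = j) ∧ ∃ k, 3 ≤ G.wt k) ∨
        ∃ Y ∈ lay G.wt 1, ∃ l : (Fin n → ℝ) →ₗ[ℝ] ℝ,
          (∀ a ∈ lay G.wt 1, ∀ b ∈ lay G.wt 1, l (brk G.mul Y (brk G.mul a b)) = 0) ∧
          (∀ a ∈ lay G.wt 1, 0 ≤ l (brk G.mul a (brk G.mul a Y))) ∧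
          ∃ a ∈ lay G.wt 1, l (brk G.mul a (brk G.mul a Y)) ≠ 0) →
      NonIdeal G ∧ ∀ N : ℝ, ¬ MCP G N := by
    intro n G h
    have h' : ∃ Y ∈ lay G.wt 1, ∃ l : (Fin n → ℝ) →ₗ[ℝ] ℝ,
          (∀ a ∈ lay G.wt 1, ∀ b ∈ lay G.wt 1, l (brk G.mul Y (brk G.mul a b)) = 0) ∧
          (∀ a ∈ lay G.wt 1, 0 ≤ l (brk G.mul a (brk G.mul a Y))) ∧
          ∃ a ∈ lay G.wt 1, l (brk G.mul a (brk G.mul a Y)) ≠ 0 := by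
      rcases h with ⟨h2, h3⟩ | h
      · exact rank_two G h2 h3
      · exact h
    obtain ⟨Y, hY, l, hl1, hl2, hl3⟩ := h'
    obtain ⟨D, hD⟩ := cal_of_form' G hY l hl1 hl2 hl3
    exact ⟨nonIdeal_of_cal D hD, not_mcp_of_cal D⟩
  refine ⟨fun n G h => ⟨measurePreserving_left G, key n G h⟩, ?_⟩
  obtain ⟨G, hG, -⟩ := exists_engel
  refine ⟨G, hG, key 4 G (Or.inl ⟨⟨0, 1, by decide, ?_⟩, ⟨3, by rw [hG]; simp⟩⟩)⟩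
  intro k
  rw [hG]
  fin_cases k <;> simp

end Pool.Agent.CMC
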