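import Mathlib

/-!
# Carnot groups, their Carnot-Caratheodory distance and the measure contraction property
-/

set_option autoImplicit false

namespace Pool.Agent.CMC

open MeasureTheory Set
open scoped ContDiff

/-- The left-invariant vector field with value `a` at the neutral element `0`, for a group law `m`
on `ℝⁿ`: `X_a(g) = d/dt g · (t a)` at `t = 0`. -/
noncomputable def lif {n : ℕ} (m : (Fin n → ℝ) → (Fin n → ℝ) → (Fin n → ℝ)) (a g : Fin n → ℝ) :
    Fin n → ℝ :=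
  fderiv ℝ (m g) 0 a

/-- The Lie bracket of `a` and `b`: the value at `0` of the Lie bracket of the left-invariant
vector fields. -/
noncomputable def brk {n : ℕ} (m : (Fin n → ℝ) → (Fin n → ℝ) → (Fin n → ℝ)) (a b : Fin n → ℝ) :
    Fin n → ℝ :=
  VectorField.lieBracket ℝ (lif m a) (lif m b) 0

/-- The layer `𝔤_j`: the vectors supported on the coordinates of weight `j`. -/
def lay {n : ℕ} (wt : Fin n → ℕ) (j : ℕ) : Submodule ℝ (Fin n → ℝ) where
  carrier := {v | ∀ i, wt i ≠ j → v i = 0}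
  add_mem' := fun {a b} ha hb i hi => by rw [Pi.add_apply, ha i hi, hb i hi, add_zero]
  zero_mem' := fun _ _ => rfl
  smul_mem' := fun c a ha i hi => by rw [Pi.smul_apply, ha i hi, smul_zero]

/-- The dilation `δ_r`. -/
def dl {n : ℕ} (wt : Fin n → ℕ) (r : ℝ) (a : Fin n → ℝ) : Fin n → ℝ := fun i => r ^ wt i * a i

/-- A Carnot group in exponential coordinates: a smooth group law on `ℝⁿ` for which the lines
`t ↦ t v` are one-parameter subgroups (so `0` is the neutral element and `-v` is the inverse of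
`v`), the dilations are automorphisms, and the Lie algebra is stratified:
`[𝔤₁, 𝔤_j] = 𝔤_{j+1}` for all `j ≥ 1`. The left-invariant inner product on `𝔤₁` is the one for
which the coordinates of weight one are orthonormal. -/
structure Carnot (n : ℕ) where
  wt : Fin n → ℕ
  mul : (Fin n → ℝ) → (Fin n → ℝ) → (Fin n → ℝ)
  wt_pos : ∀ i, 1 ≤ wt i
  smooth : ContDiff ℝ ∞ (fun p : (Fin n → ℝ) × (Fin n → ℝ) => mul p.1 p.2)
  assoc : ∀ a b c, mul (mul a b) c = mul a (mul b c)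
  expo : ∀ (v : Fin n → ℝ) (s t : ℝ), mul (s • v) (t • v) = (s + t) • v
  dil : ∀ r : ℝ, 0 < r → ∀ a b, mul (dl wt r a) (dl wt r b) = dl wt r (mul a b)
  strat : ∀ j, 1 ≤ j →
    lay wt (j + 1) = Submodule.span ℝ {c | ∃ a ∈ lay wt 1, ∃ b ∈ lay wt j, c = brk mul a b}

variable {n : ℕ}

/-- `γ : [0, T] → G` is a Lipschitz horizontal curve of speed at most one. -/
def SubUnit (G : Carnot n) (T : ℝ) (γ : ℝ → Fin n → ℝ) : Prop :=
  (∃ K, LipschitzOnWith K γ (Icc 0 T)) ∧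
  ∀ᵐ t : ℝ, t ∈ Icc 0 T → ∃ u ∈ lay G.wt 1, ∑ i, u i ^ 2 ≤ 1 ∧
    HasDerivAt γ (lif G.mul u (γ t)) t

/-- The Carnot-Caratheodory distance: the infimum of the times `T` in which one can go from `p` to
`q` along horizontal curves of speed at most one. -/
noncomputable def cc (G : Carnot n) (p q : Fin n → ℝ) : ℝ :=
  sInf {T | 0 ≤ T ∧ ∃ γ, SubUnit G T γ ∧ γ 0 = p ∧ γ T = q}

/-- `γ : [0, 1] → G` is a constant speed minimizing geodesic. -/
def Geod (G : Carnot n) (γ : ℝ → Fin n → ℝ) : Prop :=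
  ∀ s ∈ Icc (0 : ℝ) 1, ∀ t ∈ Icc (0 : ℝ) 1, cc G (γ s) (γ t) = |s - t| * cc G (γ 0) (γ 1)

/-- `Z_t(x, Ω)` -/
def Zt (G : Carnot n) (t : ℝ) (x : Fin n → ℝ) (Ω : Set (Fin n → ℝ)) : Set (Fin n → ℝ) :=
  {p | ∃ γ, Geod G γ ∧ γ 0 = x ∧ γ 1 ∈ Ω ∧ γ t = p}

/-- `MCP(0, N)` for the Lebesgue measure, which is the Haar measure of `G`. -/
def MCP (G : Carnot n) (N : ℝ) : Prop :=
  ∀ (x : Fin n → ℝ) (Ω : Set (Fin n → ℝ)), MeasurableSet Ω → 0 < volume Ω → volume Ω < ⊤ →
    ∀ t ∈ Icc (0 : ℝ) 1, ENNReal.ofReal (t ^ N) * volume Ω ≤ volume (Zt G t x Ω)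

end Pool.Agent.CMC
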