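import Pool.Agent.Lib_helper36.CMC.Plain

/-!
# Abnormal curves and non-ideal Carnot groups
-/

set_option autoImplicit false

namespace Pool.Agent.CMC

open MeasureTheory Set

variable {n : ℕ}

/-- A control on `[0, 1]`: a bounded measurable map with values in `𝔤₁`. -/
def Control (G : Carnot n) (u : ℝ → Fin n → ℝ) : Prop :=
  Measurable u ∧ (∀ t, u t ∈ lay G.wt 1) ∧ ∃ K, ∀ t, ∑ i, u t i ^ 2 ≤ K

/-- `γ : [0, 1] → G` is a trajectory of the control `u`: `γ' = X_u(γ)` almost everywhere. -/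
def Traj (G : Carnot n) (u γ : ℝ → Fin n → ℝ) : Prop :=
  (∃ K, LipschitzOnWith K γ (Icc 0 1)) ∧
  ∀ᵐ t : ℝ, t ∈ Icc 0 1 → HasDerivAt γ (lif G.mul (u t) (γ t)) t

/-- The trajectory `γ` of the control `u` is abnormal: `u` is a critical point of the endpoint map
`u ↦ γ(1)` (with fixed initial point), that is, a covector `μ ≠ 0` annihilates the derivative
`w = d/dε Γ_ε(1)` at `ε = 0` for all trajectories `Γ_ε` of the controls `u + ε v`, for all
controls `v`. -/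
def Abnormal (G : Carnot n) (u γ : ℝ → Fin n → ℝ) : Prop :=
  ∃ μ : (Fin n → ℝ) →L[ℝ] ℝ, μ ≠ 0 ∧ ∀ v, Control G v → ∀ Γ : ℝ → ℝ → Fin n → ℝ,
    (∀ ε, Traj G (fun t => u t + ε • v t) (Γ ε) ∧ Γ ε 0 = γ 0) →
    (∀ t ∈ Icc (0 : ℝ) 1, Γ 0 t = γ t) →
    ∀ w, HasDerivAt (fun ε => Γ ε 1) w 0 → μ w = 0

/-- `G` is non-ideal: a non-constant minimizing geodesic is abnormal. -/
def NonIdeal (G : Carnot n) : Prop :=
  ∃ u γ, Control G u ∧ Traj G u γ ∧ Abnormal G u γ ∧ Geod G γ ∧ γ 0 ≠ γ 1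

end Pool.Agent.CMC
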